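import Mathlib

/-!
Counting: over five or more letters there are too few shuffle squares for a bounded number of
cuts to reach every even word.
-/

set_option autoImplicit false

open Filter Topology

namespace Pool.Agent.P.MP_df1ab4_co

/-- all words of length `n` -/
def words (β : Type) [Fintype β] [DecidableEq β] (n : ℕ) : Finset (List β) :=
  (Finset.univ : Finset (Fin n → β)).image List.ofFn

theorem mem_words {β : Type} [Fintype β] [DecidableEq β] {n : ℕ} {w : List β} :
    w ∈ words β n ↔ w.length = n := by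
  simp only [words, Finset.mem_image, Finset.mem_univ, true_and]
  constructor
  · rintro ⟨f, rfl⟩
    simp
  · rintro rfl
    exact ⟨w.get, List.ofFn_get w⟩

theorem card_words (β : Type) [Fintype β] [DecidableEq β] (n : ℕ) :
    (words β n).card = Fintype.card β ^ n := by
  rw [words, Finset.card_image_of_injective _ List.ofFn_injective]
  simp

/-- interleave two words along a mask -/
def weave {β : Type} : List Bool → List β → List β → List β
  | true :: bs, x :: xs, ys => x :: weave bs xs ys
  | false :: bs, xs, y :: ys => y :: weave bs xs ys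
  | _, _, _ => []

theorem weave_eq {β : Type} : ∀ (w : List β) (m : List Bool), m.length = w.length →
    weave m (((w.zip m).filter fun p => p.2).map Prod.fst)
      (((w.zip m).filter fun p => !p.2).map Prod.fst) = w
  | [], m, h => by
    have : m = [] := by simpa using h
    subst this
    simp [weave]
  | a :: w, [], h => by simp at h
  | a :: w, true :: m, h => by
    have := weave_eq w m (by simpa using h)
    simp [weave, this]
  | a :: w, false :: m, h => by
    have := weave_eq w m (by simpa using h)
    simp [weave, this]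

theorem half_length {β : Type} (w : List β) (m : List Bool) (h : m.length = w.length) :
    (((w.zip m).filter fun p => p.2).map Prod.fst).length +
      (((w.zip m).filter fun p => !p.2).map Prod.fst).length = w.length := by
  rw [List.length_map, List.length_map]
  have := List.length_eq_length_filter_add (l := w.zip m) (fun p => p.2)
  rw [← this]
  simp [h]

/-- glue together factors of `U` given by start and length -/
def glue {β : Type} {n : ℕ} (U : List β) (P : List (Fin (n + 1) × Fin (n + 1))) : List β :=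
  (P.map fun p => (U.drop p.1).take p.2).flatten

theorem exists_glue {β : Type} {n : ℕ} (U : List β) (hU : U.length = n) :
    ∀ (j : ℕ) (B : List (List β)), B.length ≤ j → (∀ b ∈ B, b <:+: U) →
      ∃ P : List (Fin (n + 1) × Fin (n + 1)), P.length = j ∧ glue U P = B.flatten
  | 0, B, h, _ => by
    have : B = [] := by simpa using h
    subst this
    exact ⟨[], rfl, rfl⟩
  | j + 1, [], _, _ => by
    obtain ⟨P, hP, hg⟩ := exists_glue U hU j [] (by simp) (by simp)
    refine ⟨(0, 0) :: P, by simp [hP], ?_⟩
    simpa [glue] using hg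
  | j + 1, b :: B, h, hB => by
    obtain ⟨P, hP, hg⟩ := exists_glue U hU j B (by simpa using h)
      (fun b' hb' => hB b' (List.mem_cons_of_mem _ hb'))
    obtain ⟨s, t, hst⟩ := hB b List.mem_cons_self
    have hlen : s.length + b.length + t.length = n := by
      rw [← hU, ← hst]; simp [add_assoc]
    refine ⟨(⟨s.length, by omega⟩, ⟨b.length, by omega⟩) :: P, by simp [hP], ?_⟩
    have h1 : (U.drop s.length).take b.length = b := by
      rw [← hst, List.append_assoc, List.drop_left, List.take_left]
    simp only [glue] at hg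
    simp only [glue, List.map_cons, List.flatten_cons, hg, h1]

theorem exists_big (k d : ℕ) : ∃ h : ℕ, 4 ^ k * 4 ^ h * (2 * h + 1) ^ d < 5 ^ h := by
  have ht : Tendsto (fun n : ℕ => ((4 : ℝ) ^ k * 3 ^ d) * ((n : ℝ) ^ d * (4 / 5 : ℝ) ^ n)) atTop
      (𝓝 (((4 : ℝ) ^ k * 3 ^ d) * 0)) :=
    (tendsto_pow_const_mul_const_pow_of_abs_lt_one d (by rw [abs_lt]; constructor <;> norm_num)).const_mul _
  have hev : ∀ᶠ n : ℕ in atTop,
      ((4 : ℝ) ^ k * 3 ^ d) * ((n : ℝ) ^ d * (4 / 5 : ℝ) ^ n) < 1 :=
    ht.eventually (gt_mem_nhds (by simp))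
  obtain ⟨h, hh, hh1⟩ := (hev.and (eventually_ge_atTop 1)).exists
  refine ⟨h, ?_⟩
  have h1 : (1 : ℝ) ≤ h := by exact_mod_cast hh1
  have h2 : ((2 * h + 1 : ℝ)) ^ d ≤ (3 * h) ^ d := by
    gcongr
    linarith
  have h3 : (4 : ℝ) ^ k * 4 ^ h * (2 * h + 1) ^ d < 5 ^ h := by
    calc (4 : ℝ) ^ k * 4 ^ h * (2 * h + 1) ^ d ≤ (4 : ℝ) ^ k * 4 ^ h * (3 * h) ^ d := by gcongr
      _ = (((4 : ℝ) ^ k * 3 ^ d) * ((h : ℝ) ^ d * (4 / 5 : ℝ) ^ h)) * 5 ^ h := by
        rw [div_pow, mul_pow]
        field_simp
      _ < 1 * 5 ^ h := by gcongr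
      _ = 5 ^ h := one_mul _
  exact_mod_cast h3

theorem main (k : ℕ) (hk : 5 ≤ k) (c : ℕ) :
    ∃ W : List (Fin k), (∀ a, Even (W.count a)) ∧
      ∀ B B' : List (List (Fin k)), B.length ≤ c + 1 → B.flatten = W → B'.Perm B →
        ¬ ∃ m : List Bool, m.length = B'.flatten.length ∧
          ((B'.flatten.zip m).filter fun p => p.2).map Prod.fst =
            ((B'.flatten.zip m).filter fun p => !p.2).map Prod.fst := by
  by_contra hcon
  push Not at hcon
  obtain ⟨h, hbig⟩ := exists_big k (2 * (c + 1))
  let par : List (Fin k) → (Fin k → Bool) := fun u a => decide (Even (u.count a))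
  obtain ⟨t, -, ht⟩ : ∃ t ∈ (Finset.univ : Finset (Fin k → Bool)),
      (words (Fin k) h).card ≤ 2 ^ k * ((words (Fin k) h).filter fun u => par u = t).card := by
    by_contra hlt
    push Not at hlt
    have hsum := Finset.card_eq_sum_card_fiberwise (s := words (Fin k) h)
      (t := (Finset.univ : Finset (Fin k → Bool))) (f := par) (fun _ _ => Finset.mem_univ _)
    have h2 : ∑ t : Fin k → Bool, 2 ^ k * ((words (Fin k) h).filter fun u => par u = t).card
        < ∑ _t : Fin k → Bool, (words (Fin k) h).card :=
      Finset.sum_lt_sum_of_nonempty Finset.univ_nonempty fun t ht => hlt t ht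
    rw [← Finset.mul_sum, ← hsum] at h2
    simp at h2
  set Q := (words (Fin k) h).filter fun u => par u = t with hQ
  let D := words Bool (2 * h) ×ˢ words (Fin k) h ×ˢ
    words (Fin (2 * h + 1) × Fin (2 * h + 1)) (c + 1)
  let dec : List Bool × List (Fin k) × List (Fin (2 * h + 1) × Fin (2 * h + 1)) →
      List (Fin k) × List (Fin k) := fun d =>
    ((glue (weave d.1 d.2.1 d.2.1) d.2.2).take h, (glue (weave d.1 d.2.1 d.2.1) d.2.2).drop h)
  have hsub : Q ×ˢ Q ⊆ D.image dec := by
    rintro ⟨u, v⟩ huv
    simp only [hQ, Finset.mem_product, Finset.mem_filter, mem_words] at huv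
    obtain ⟨⟨hu, hut⟩, hv, hvt⟩ := huv
    have heven : ∀ a, Even ((u ++ v).count a) := by
      intro a
      have := congrFun (hut.trans hvt.symm) a
      simp only [par, decide_eq_decide] at this
      rw [List.count_append, Nat.even_add]
      exact this
    obtain ⟨B, B', hB, hBW, hperm, m, hm, heq⟩ := hcon (u ++ v) heven
    have hlen : B'.flatten.length = 2 * h := by
      rw [hperm.flatten.length_eq, hBW, List.length_append, hu, hv]; ring
    obtain ⟨P, hP, hg⟩ := exists_glue B'.flatten hlen (c + 1) B hB
      (fun b hb => List.infix_of_mem_flatten (hperm.mem_iff.2 hb))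
    have hw := weave_eq B'.flatten m hm
    have hh := half_length B'.flatten m hm
    rw [← heq] at hw hh
    refine Finset.mem_image.2 ⟨(m, ((B'.flatten.zip m).filter fun p => p.2).map Prod.fst, P), ?_, ?_⟩
    · simp only [D, Finset.mem_product, mem_words]
      exact ⟨by omega, by omega, hP⟩
    · simp only [dec, hw, hg, hBW]
      rw [← hu, List.take_left, List.drop_left]
  have hcard := (Finset.card_le_card hsub).trans Finset.card_image_le
  simp only [D, Finset.card_product, card_words, Fintype.card_bool, Fintype.card_fin,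
    Fintype.card_prod] at hcard ht
  have hkpos : 0 < k ^ h := by positivity
  have h5 : 5 ^ h ≤ k ^ h := Nat.pow_le_pow_left hk h
  have e1 : k ^ h * k ^ h ≤ 4 ^ k * (Q.card * Q.card) := by
    calc k ^ h * k ^ h ≤ (2 ^ k * Q.card) * (2 ^ k * Q.card) := Nat.mul_le_mul ht ht
      _ = 4 ^ k * (Q.card * Q.card) := by
        rw [show (4 : ℕ) ^ k = 2 ^ k * 2 ^ k by rw [← mul_pow]; norm_num]; ring
  have e2 : k ^ h * k ^ h ≤ (4 ^ k * 4 ^ h * (2 * h + 1) ^ (2 * (c + 1))) * k ^ h := by
    calc k ^ h * k ^ h ≤ 4 ^ k * (2 ^ (2 * h) * (k ^ h * ((2 * h + 1) * (2 * h + 1)) ^ (c + 1))) :=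
          e1.trans (Nat.mul_le_mul_left _ hcard)
      _ = (4 ^ k * 4 ^ h * (2 * h + 1) ^ (2 * (c + 1))) * k ^ h := by
        rw [pow_mul, pow_mul, ← sq]; ring
  have e3 := Nat.le_of_mul_le_mul_right e2 hkpos
  omega

end Pool.Agent.P.MP_df1ab4_co
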