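import Mathlib

/-! Ternary words far from shuffle squares: the argument on one window of runs. -/

set_option autoImplicit false

namespace Pool.Agent.P.MP_df1ab4_co.Tern

open Finset

/-- The letters of the runs of a window: `(01)^K 2 0 1 2 0 1 ...`. -/
def pat (K j : ℕ) : ℕ := if j < 2 * K then j % 2 else (j - 2 * K + 2) % 3

theorem pat_lt (K j : ℕ) : pat K j < 3 := by
  unfold pat
  split_ifs <;> omega

theorem pat_succ (K j : ℕ) : pat K j ≠ pat K (j + 1) := by
  unfold pat
  split_ifs <;> omega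

theorem pat_two {K j : ℕ} (h : 2 * K ≤ j) : pat K j ≠ pat K (j + 2) := by
  unfold pat
  split_ifs <;> omega

theorem pat_first {K j : ℕ} (h : j ≤ 2 * K) (e : pat K j = pat K (2 * K)) : j = 2 * K := by
  unfold pat at e
  split_ifs at e <;> omega

/-- Two monotone sequences of bounded targets cannot serve many triples of different letters. -/
theorem triples (τ : ℕ → Bool) (r e : ℕ → ℕ) (A j₁ : ℕ)
    (hb : ∀ j, j₁ ≤ j → j < j₁ + 3 * (2 * A + 1) → r j ≤ A)
    (hm : ∀ j j', j₁ ≤ j → j < j' → j' < j₁ + 3 * (2 * A + 1) → τ j = τ j' →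
      r j ≤ r j' ∧ (e j ≠ e j' → r j < r j'))
    (h1 : ∀ j, e j ≠ e (j + 1)) (h2 : ∀ j, j₁ ≤ j → e j ≠ e (j + 2)) : False := by
  have key : ∀ i, i ≤ 2 * A + 1 → ∃ a : Bool → ℕ, i ≤ a true + a false ∧ (∀ t, a t ≤ A) ∧
      ∀ j, j₁ + 3 * i ≤ j → j < j₁ + 3 * (2 * A + 1) → a (τ j) ≤ r j := by
    intro i
    induction i with
    | zero => exact fun _ => ⟨fun _ => 0, by simp, by simp, by simp⟩
    | succ i ih =>
      intro hi
      obtain ⟨a, a1, a2, a3⟩ := ih (by omega)
      obtain ⟨j, j', b1, b2, b3, b4, b5⟩ : ∃ j j', j₁ + 3 * i ≤ j ∧ j < j' ∧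
          j' < j₁ + 3 * (i + 1) ∧ τ j = τ j' ∧ e j ≠ e j' := by
        by_cases c1 : τ (j₁ + 3 * i) = τ (j₁ + 3 * i + 1)
        · exact ⟨_, _, le_rfl, by omega, by omega, c1, h1 _⟩
        by_cases c2 : τ (j₁ + 3 * i) = τ (j₁ + 3 * i + 2)
        · exact ⟨_, _, le_rfl, by omega, by omega, c2, h2 _ (by omega)⟩
        refine ⟨j₁ + 3 * i + 1, j₁ + 3 * i + 1 + 1, by omega, by omega, by omega, ?_, h1 _⟩
        revert c1 c2
        cases τ (j₁ + 3 * i) <;> cases τ (j₁ + 3 * i + 1) <;> cases τ (j₁ + 3 * i + 2) <;> simp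
      have c1 := a3 j b1 (by omega)
      have c2 := (hm j j' (by omega) b2 (by omega) b4).2 b5
      have c3 := hb j' (by omega) (by omega)
      refine ⟨fun t => if t = τ j then a t + 1 else a t, ?_, fun t => ?_, fun l l1 l2 => ?_⟩
      · cases τ j <;> simp <;> omega
      · by_cases c : t = τ j
        · simp only [if_pos c]
          rw [c]
          omega
        · simp only [if_neg c]
          exact a2 t
      · by_cases c : τ l = τ j
        · have := (hm j' l (by omega) (by omega) l2 (b4.symm.trans c.symm)).1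
          simp only [if_pos c]
          rw [c]
          omega
        · simp only [if_neg c]
          exact a3 l (by omega) l2
  obtain ⟨a, a1, a2, -⟩ := key _ le_rfl
  have := a2 true
  have := a2 false
  omega

/-- The number of runs in a window that starts at the run `u`. -/
def len (C u : ℕ) : ℕ := 2 * (C * u) + 3 + 3 * (2 * (3 * (C * u) + u + 2) + 1)

/-- Positions `P`, run numbers `σ`, block numbers `b`, a matching `μ` without nested arcs that
keeps the letters; the runs of a window lie in one block. -/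
theorem core {P α : Type} [Fintype P] [LinearOrder P] (σ b : P → ℕ) (μ : P → P) (ℓ : ℕ → α)
    (ι : ℕ → α) (u C b₀ : ℕ) (hι : ∀ i j, i < 3 → j < 3 → ι i = ι j → i = j)
    (m1 : ∀ x, μ (μ x) = x) (m2 : ∀ x, μ x ≠ x) (m3 : ∀ x, ℓ (σ (μ x)) = ℓ (σ x))
    (m4 : ∀ x y, x < y → x < μ x → y < μ y → μ x < μ y)
    (h1 : Monotone b) (h2 : ∀ x y, x ≤ y → b x = b y → σ x ≤ σ y) (h3 : ∀ x, b x < C)
    (hw : ∀ x, u ≤ σ x → σ x < u + len C u → b x = b₀)
    (hc : ∀ s, u ≤ s → s < u + len C u →
      #(univ.filter fun x => σ x = s) = 2 * #(univ.filter fun x => s < σ x) + 1)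
    (hl : ∀ j, j < len C u → ℓ (u + j) = ι (pat (C * u) j)) : False := by
  obtain ⟨K, hK⟩ : ∃ K, K = C * u := ⟨_, rfl⟩
  obtain ⟨L, hL⟩ : ∃ L, L = len C u := ⟨_, rfl⟩
  have hL' : L = 2 * K + 3 + 3 * (2 * (3 * K + u + 2) + 1) := by rw [hL, hK, len]
  rw [← hL] at hw hc hl
  rw [← hK] at hl
  have inj : Function.Injective μ := Function.LeftInverse.injective m1
  have m5 : ∀ x y, x < y → μ x < x → μ y < y → μ x < μ y := fun x y a c d => by
    rcases lt_trichotomy (μ x) (μ y) with e | e | e
    · exact e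
    · exact absurd (inj e) a.ne
    · have := m4 _ _ e (by rwa [m1]) (by rwa [m1])
      rw [m1, m1] at this
      exact absurd a this.not_gt
  have lne : ∀ i j, i < L → j < L → ℓ (u + i) = ℓ (u + j) → pat K i = pat K j :=
    fun i j a c e => hι _ _ (pat_lt _ _) (pat_lt _ _) (by rw [← hl i a, ← hl j c, e])
  have ex : ∀ j, j < L → ∃ p, σ p = u + j ∧ σ (μ p) ≤ u + j ∧ (μ p < p ∨ b₀ < b (μ p)) := by
    intro j hj
    obtain ⟨p, p1, p2⟩ : ∃ p, σ p = u + j ∧ σ (μ p) ≤ u + j := by
      by_contra c
      have a := hc (u + j) (by omega) (by omega)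
      have := card_le_card_of_injOn (s := univ.filter fun x => σ x = u + j)
        (t := univ.filter fun x => u + j < σ x) μ (fun x hx => by
          simp only [coe_filter, mem_univ, true_and, Set.mem_ofPred_eq] at hx ⊢
          by_contra d
          exact c ⟨x, hx, not_lt.1 d⟩) inj.injOn
      omega
    rcases (m2 p).lt_or_gt with c | c
    · exact ⟨p, p1, p2, Or.inl c⟩
    have d := hw p (by omega) (by omega)
    rcases (h1 c.le).eq_or_lt with e | e
    · have := h2 p _ c.le e
      exact ⟨μ p, by omega, by rw [m1]; omega, Or.inl (by rwa [m1])⟩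
    · exact ⟨p, p1, p2, Or.inr (d ▸ e)⟩
  have : Nonempty P := ⟨(ex 0 (by omega)).choose⟩
  choose! x x1 x2 x3 using ex
  have xb : ∀ j, j < L → b (x j) = b₀ := fun j hj =>
    hw _ (by rw [x1 j hj]; omega) (by rw [x1 j hj]; omega)
  have ord : ∀ p q, b p = b₀ → b q = b₀ → σ p < σ q → p < q := fun p q a c d => by
    by_contra e
    exact absurd (h2 q p (not_lt.1 e) (c.trans a.symm)) (not_le.2 d)
  have xo : ∀ i j, i < j → j < L → x i < x j := fun i j a c =>
    ord _ _ (xb i (by omega)) (xb j c) (by rw [x1 i (by omega), x1 j c]; omega)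
  have out : ∀ y, σ y < u + L → b y ≠ b₀ → σ y < u := fun y a c => by
    by_contra d
    exact c (hw y (not_lt.1 d) a)
  have rk : ∀ y y', y ≤ y' → σ y < u + L → (b y = b₀ → b y' = b₀) →
      b y * u + σ y ≤ b y' * u + σ y' ∧ (σ y ≠ σ y' → b y * u + σ y < b y' * u + σ y') := by
    intro y y' a c d
    rcases (h1 a).eq_or_lt with e | e
    · have := h2 y y' a e
      rw [e]
      omega
    · have f := out y c fun f => e.ne (f.trans (d f).symm)
      have := Nat.mul_le_mul_right u (Nat.succ_le_of_lt e)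
      rw [Nat.succ_mul] at this
      omega
  obtain ⟨r, hr⟩ : ∃ r : ℕ → ℕ, ∀ j, r j = b (μ (x j)) * u + σ (μ (x j)) := ⟨_, fun _ => rfl⟩
  have lft : ∀ j, j < L → μ (x j) < x j → b (μ (x j)) ≤ b₀ := fun j hj c => xb j hj ▸ h1 c.le
  have cmp : ∀ i j, i < L → j < L → μ (x i) < μ (x j) →
      (b (μ (x i)) = b₀ → b (μ (x j)) = b₀) → r i ≤ r j ∧ (pat K i ≠ pat K j → r i < r j) := by
    intro i j a c d e
    have f := rk _ _ d.le (by have := x2 i a; omega) e
    rw [hr, hr]
    refine ⟨f.1, fun g => f.2 fun e' => g (lne i j a c ?_)⟩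
    rw [← x1 i a, ← x1 j c, ← m3 (x i), ← m3 (x j), e']
  have cL : ∀ i j, i < j → j < L → μ (x i) < x i → μ (x j) < x j →
      r i ≤ r j ∧ (pat K i ≠ pat K j → r i < r j) := fun i j a c d e =>
    have f := m5 _ _ (xo i j a c) d e
    cmp i j (by omega) c f fun g => le_antisymm (lft j c e) (g ▸ h1 f.le)
  have hb0 : b₀ * u + u ≤ K := by
    have := Nat.mul_le_mul_right u (Nat.succ_le_of_lt (xb 0 (by omega) ▸ h3 (x 0)))
    rwa [Nat.succ_mul, ← hK] at this
  by_cases hA : ∀ j, j ≤ 2 * K + 2 → μ (x j) < x j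
  · have st : ∀ j, j + 1 ≤ 2 * K + 2 → r j < r (j + 1) := fun j hj =>
      (cL j (j + 1) (by omega) (by omega) (hA j (by omega)) (hA _ hj)).2 (pat_succ K j)
    have lo : ∀ j, j ≤ 2 * K + 2 → j ≤ r j := fun j => by
      induction j with
      | zero => omega
      | succ j ih =>
        intro hj
        have := st j hj
        have := ih (by omega)
        omega
    have sf : ∀ j, j ≤ 2 * K + 2 → b₀ * u ≤ r j → b (μ (x j)) = b₀ := fun j hj a => by
      by_contra c
      have d := out _ (by have := x2 j (by omega); omega) c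
      have e := lt_of_le_of_ne (lft j (by omega) (hA j hj)) c
      have := Nat.mul_le_mul_right u (Nat.succ_le_of_lt e)
      rw [Nat.succ_mul] at this
      rw [hr] at a
      omega
    have a1 := lo (2 * K) (by omega)
    have a2 := sf (2 * K) (by omega) (by omega)
    have a3 := hr (2 * K)
    have a4 := x2 (2 * K) (by omega)
    rw [a2] at a3
    obtain ⟨i, hi⟩ : ∃ i, σ (μ (x (2 * K))) = u + i := ⟨σ (μ (x (2 * K))) - u, by omega⟩
    have a5 : i = 2 * K := pat_first (by omega) (lne _ _ (by omega) (by omega) (by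
      rw [← hi, m3, x1 _ (by omega)]))
    have a6 := st (2 * K) (by omega)
    have a7 := st (2 * K + 1) (by omega)
    have a8 := sf (2 * K + 1 + 1) (by omega) (by omega)
    have a9 := hr (2 * K + 1 + 1)
    have a10 := x2 (2 * K + 1 + 1) (by omega)
    rw [a8] at a9
    have cl : ∀ z, σ z = u + (2 * K + 1) → σ (μ z) = u + (2 * K + 1) := fun z hz => by
      have c0 := hw z (by omega) (by omega)
      have c1 := m3 z
      rcases (m2 z).lt_or_gt with c | c
      · have d := m5 _ _ (ord _ z (xb (2 * K) (by omega)) c0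
          (by rw [x1 _ (by omega)]; omega)) (hA _ (by omega)) c
        have e : b (μ z) = b₀ := le_antisymm (c0 ▸ h1 c.le) (a2 ▸ h1 d.le)
        have f := h2 _ _ d.le (a2.trans e.symm)
        have g := h2 _ _ c.le (e.trans c0.symm)
        by_contra k
        rw [show σ (μ z) = u + 2 * K by omega, hz] at c1
        exact pat_succ K _ (lne _ _ (by omega) (by omega) c1)
      · have d := m4 z _ (ord z _ c0 a8 (by omega)) c (by rw [m1]; exact hA _ (by omega))
        rw [m1] at d
        have d' := xb (2 * K + 1 + 1) (by omega)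
        have e : b (μ z) = b₀ := le_antisymm (d' ▸ h1 d.le) (c0 ▸ h1 c.le)
        have f := h2 _ _ d.le (e.trans d'.symm)
        have g := h2 _ _ c.le (c0.trans e.symm)
        rw [x1 _ (by omega)] at f
        by_contra k
        rw [show σ (μ z) = u + (2 * K + 1 + 1) by omega, hz] at c1
        exact pat_succ K _ (lne _ _ (by omega) (by omega) c1.symm)
    have ev : ∑ _z ∈ univ.filter (fun z => σ z = u + (2 * K + 1)), (1 : ZMod 2) = 0 :=
      sum_involution (fun z _ => μ z) (fun _ _ => rfl) (fun z _ _ => m2 z)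
        (fun z hz => mem_filter.2 ⟨mem_univ _, cl z (mem_filter.1 hz).2⟩) fun z _ => m1 z
    rw [sum_const, hc _ (by omega) (by omega), nsmul_eq_mul, mul_one,
      ZMod.natCast_eq_zero_iff_even] at ev
    exact Nat.not_even_two_mul_add_one _ ev
  · push Not at hA
    obtain ⟨j₀, hj, hx⟩ := hA
    have a1 := (x3 j₀ (by omega)).resolve_left (not_lt.2 hx)
    have rt : ∀ j, j < L → ¬ μ (x j) < x j → b₀ < b (μ (x j)) ∧ x j < μ (x j) := fun j a c =>
      ⟨(x3 j a).resolve_left c, lt_of_le_of_ne (not_lt.1 c) (m2 _).symm⟩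
    refine triples (fun j => decide (μ (x j) < x j)) r (pat K) (3 * K + u + 2) (2 * K + 3)
      (fun j a c => ?_) (fun j j' a c d e => ?_) (pat_succ K) fun j a => pat_two (by omega)
    · by_cases f : μ (x j) < x j
      · have g : x j < μ (x j₀) := h1.reflect_lt (xb j (by omega) ▸ a1)
        have k := m5 _ _ g f (by rw [m1]; exact (rt j₀ (by omega) (not_lt.2 hx)).2)
        rw [m1] at k
        have := (rk _ _ k.le (by have := x2 j (by omega); omega) fun _ => xb j₀ (by omega)).1
        rw [xb j₀ (by omega), x1 j₀ (by omega), ← hr] at this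
        omega
      · have g := out _ (by have := x2 j (by omega); omega) (rt j (by omega) f).1.ne'
        have := Nat.mul_le_mul_right u (h3 (μ (x j))).le
        rw [hr]
        omega
    · rw [decide_eq_decide] at e
      by_cases f : μ (x j) < x j
      · exact cL j j' c (by omega) f (e.1 f)
      · have g := rt j (by omega) f
        have k := rt j' (by omega) fun k => f (e.2 k)
        exact cmp j j' (by omega) (by omega) (m4 _ _ (xo j j' c (by omega)) g.2 k.2)
          fun e' => absurd e' g.1.ne'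

end Pool.Agent.P.MP_df1ab4_co.Tern
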