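import Pool.Agent.P.MP_df1ab4_co.TernA

/-! Ternary words far from shuffle squares: the words, the blocks and the matching. -/

set_option autoImplicit false

namespace Pool.Agent.P.MP_df1ab4_co.Tern

open Finset

/-- Two increasing lists that split the positions and carry the same letters give a matching. -/
theorem matching {P α : Type} [LinearOrder P] (T F : List P) (hT : T.Pairwise (· < ·))
    (hF : F.Pairwise (· < ·)) (hd : ∀ x ∈ T, x ∉ F) (hc : ∀ x, x ∈ T ∨ x ∈ F) (G : P → α)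
    (h : T.map G = F.map G) : ∃ μ : P → P, (∀ x, μ (μ x) = x) ∧ (∀ x, μ x ≠ x) ∧
      (∀ x, G (μ x) = G x) ∧ ∀ x y, x < y → x < μ x → y < μ y → μ x < μ y := by
  have hl : T.length = F.length := by simpa using congrArg List.length h
  obtain ⟨t, ht⟩ : ∃ t : Fin T.length → P, ∀ i, t i = T[i.1] := ⟨_, fun _ => rfl⟩
  obtain ⟨f, hf⟩ : ∃ f : Fin T.length → P, ∀ i, f i = F[i.1]'(hl ▸ i.2) := ⟨_, fun _ => rfl⟩
  have st : StrictMono t := fun i j e => by
    rw [ht, ht]
    exact List.pairwise_iff_getElem.1 hT _ _ _ _ e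
  have sf : StrictMono f := fun i j e => by
    rw [hf, hf]
    exact List.pairwise_iff_getElem.1 hF _ _ _ _ e
  have ne : ∀ i j, t i ≠ f j := fun i j e =>
    hd (t i) (ht i ▸ List.getElem_mem _) (e ▸ hf j ▸ List.getElem_mem _)
  have cov : ∀ x, ∃ i, x = t i ∨ x = f i := fun x => by
    rcases hc x with e | e
    · obtain ⟨i, hi, rfl⟩ := List.getElem_of_mem e
      exact ⟨⟨i, hi⟩, Or.inl (ht ⟨i, hi⟩).symm⟩
    · obtain ⟨i, hi, rfl⟩ := List.getElem_of_mem e
      exact ⟨⟨i, hl ▸ hi⟩, Or.inr (hf ⟨i, hl ▸ hi⟩).symm⟩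
  have let1 : ∀ i, G (t i) = G (f i) := fun i => by
    have := List.getElem_of_eq h (i := i.1) (by simp)
    rwa [List.getElem_map, List.getElem_map, ← ht, ← hf] at this
  choose μ hμ using fun x => show ∃ y i, (x = t i ∧ y = f i) ∨ (x = f i ∧ y = t i) from
    (cov x).elim fun i e => e.elim (fun e => ⟨_, i, Or.inl ⟨e, rfl⟩⟩) fun e => ⟨_, i, Or.inr ⟨e, rfl⟩⟩
  have mt : ∀ i, μ (t i) = f i := fun i => by
    obtain ⟨j, ⟨a, c⟩ | ⟨a, -⟩⟩ := hμ (t i)
    · rw [c, st.injective a]
    · exact absurd a (ne i j)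
  have mf : ∀ i, μ (f i) = t i := fun i => by
    obtain ⟨j, ⟨a, -⟩ | ⟨a, c⟩⟩ := hμ (f i)
    · exact absurd a.symm (ne j i)
    · rw [c, sf.injective a]
  refine ⟨μ, fun x => ?_, fun x => ?_, fun x => ?_, fun x y a c d => ?_⟩
  · obtain ⟨i, rfl | rfl⟩ := cov x <;> simp only [mt, mf]
  · obtain ⟨i, rfl | rfl⟩ := cov x
    · exact mt i ▸ (ne i i).symm
    · exact mf i ▸ ne i i
  · obtain ⟨i, rfl | rfl⟩ := cov x <;> simp only [mt, mf, let1]
  · obtain ⟨i, hi⟩ := cov x
    obtain ⟨j, hj⟩ := cov y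
    rcases lt_or_ge i j with e | e
    · have e1 := st e
      have e2 := sf e
      rcases hi with rfl | rfl <;> rcases hj with rfl | rfl <;> simp only [mt, mf] at c d ⊢ <;>
        order
    · have e1 := st.monotone e
      have e2 := sf.monotone e
      rcases hi with rfl | rfl <;> rcases hj with rfl | rfl <;> simp only [mt, mf] at c d ⊢ <;>
        order

/-- The matching of a shuffle square. -/
theorem matching' {α : Type} {n : ℕ} (G : Fin n → α) (m : List Bool)
    (hm : m.length = (List.ofFn G).length)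
    (h : (((List.ofFn G).zip m).filter fun p => p.2).map Prod.fst =
      (((List.ofFn G).zip m).filter fun p => !p.2).map Prod.fst) :
    ∃ μ : Fin n → Fin n, (∀ x, μ (μ x) = x) ∧ (∀ x, μ x ≠ x) ∧
      (∀ x, G (μ x) = G x) ∧ ∀ x y, x < y → x < μ x → y < μ y → μ x < μ y := by
  rw [List.length_ofFn] at hm
  obtain ⟨k, hk⟩ : ∃ k : Fin n → Bool, ∀ x, k x = m[x.1]'(hm ▸ x.2) :=
    ⟨fun x => m[x.1]'(hm ▸ x.2), fun _ => rfl⟩
  have e : (List.ofFn G).zip m = (List.finRange n).map fun x => (G x, k x) :=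
    List.ext_getElem (by simp [hm]) fun i _ _ => by simp [hk]
  rw [e, List.filter_map, List.filter_map, List.map_map, List.map_map] at h
  refine matching _ _ ((List.pairwise_lt_finRange n).filter _)
    ((List.pairwise_lt_finRange n).filter _) (fun x => ?_) (fun x => ?_) G h <;> simp

theorem lift {α β : Type} (g : β → α) : ∀ (B : List (List α)) (W : List β),
    B.flatten = W.map g → ∃ D : List (List β), D.flatten = W ∧ D.map (List.map g) = B
  | [], W, h => ⟨[], by simpa using h, rfl⟩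
  | B :: R, W, h => by
    obtain ⟨l₁, l₂, rfl, rfl, e⟩ := List.append_eq_map_iff.1 (List.flatten_cons ▸ h)
    obtain ⟨D, rfl, rfl⟩ := lift g R l₂ e.symm
    exact ⟨l₁ :: D, rfl, rfl⟩

theorem card_countP {β : Type} (V : List β) (p : β → Prop) [DecidablePred p] :
    #(univ.filter fun x : Fin V.length => p V[x.1]) = V.countP fun v => decide (p v) := by
  rw [card_filter, Fin.sum_univ_fun_getElem V fun v => if p v then 1 else 0]
  induction V with
  | nil => rfl
  | cons a V ih =>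
    rw [List.map_cons, List.sum_cons, ih, List.countP_cons, add_comm]
    simp

/-- Runs numbered from `s`; each run is longer than twice the rest. -/
def hier : ℕ → ℕ → List ℕ
  | _, 0 => []
  | s, j + 1 => List.replicate (2 * (hier (s + 1) j).length + 1) s ++ hier (s + 1) j

theorem hier_le : ∀ j s, ∀ x ∈ hier s j, s ≤ x
  | 0, _ => by simp [hier]
  | j + 1, s => fun x hx => by
    rcases List.mem_append.1 hx with e | e
    · exact (List.eq_of_mem_replicate e).ge
    · exact (Nat.le_succ s).trans (hier_le j _ x e)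

theorem hier_sorted : ∀ j s, (hier s j).Pairwise (· ≤ ·)
  | 0, _ => List.Pairwise.nil
  | j + 1, s => List.pairwise_append.2 ⟨by simp, hier_sorted j _, fun a ha x hx =>
      List.eq_of_mem_replicate ha ▸ (Nat.le_succ s).trans (hier_le j _ x hx)⟩

theorem hier_count : ∀ j s t, s ≤ t → t < s + j →
    (hier s j).countP (fun x => decide (x = t)) =
      2 * (hier s j).countP (fun x => decide (t < x)) + 1
  | 0, _, _ => by omega
  | j + 1, s, t => fun h1 h2 => by
    rw [hier, List.countP_append, List.countP_append, List.countP_replicate,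
      List.countP_replicate]
    rcases h1.eq_or_lt with rfl | e
    · have a : (hier (s + 1) j).countP (fun x => decide (x = s)) = 0 :=
        List.countP_eq_zero.2 fun x hx => by
          have := hier_le j _ x hx
          simp only [decide_eq_true_eq]
          omega
      have c : (hier (s + 1) j).countP (fun x => decide (s < x)) = (hier (s + 1) j).length :=
        List.countP_eq_length.2 fun x hx => decide_eq_true (hier_le j _ x hx)
      simp [a, c]
    · rw [hier_count j (s + 1) t e (by omega)]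
      simp [e.ne, e.not_gt]

/-- The letter of the run `s`. -/
def ltr (C D s : ℕ) : ℕ :=
  if s < 3 then s else pat (C * (D ^ Nat.log D s + 1)) (s - (D ^ Nat.log D s + 1))

theorem ltr_lt (C D s : ℕ) : ltr C D s < 3 := by
  unfold ltr
  split_ifs with h
  exacts [h, pat_lt _ _]

theorem win (C t : ℕ) :
    (40 * C + 32) ^ t + 1 + len C ((40 * C + 32) ^ t + 1) ≤ (40 * C + 32) ^ (t + 1) := by
  have h : 1 ≤ (40 * C + 32) ^ t := Nat.one_le_pow _ _ (by omega)
  rw [pow_succ]
  generalize (40 * C + 32) ^ t = E at h ⊢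
  have := Nat.mul_le_mul_left C h
  unfold len
  nlinarith

theorem main {α : Type} [DecidableEq α] (ι : ℕ → α)
    (hι : ∀ i j, i < 3 → j < 3 → ι i = ι j → i = j) (C : ℕ) :
    ∃ W : List α, (∀ a, Even (W.count a)) ∧ ∀ B B' : List (List α), B.length ≤ C →
      B.flatten = W → B'.Perm B → ∀ m : List Bool, m.length = B'.flatten.length →
      ((B'.flatten.zip m).filter fun p => p.2).map Prod.fst ≠
        ((B'.flatten.zip m).filter fun p => !p.2).map Prod.fst := by
  obtain ⟨D, hD⟩ : ∃ D, D = 40 * C + 32 := ⟨_, rfl⟩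
  have hp : ∀ t, 3 ≤ D ^ (t + 1) := fun t =>
    le_trans (by omega) (Nat.le_self_pow (Nat.succ_ne_zero t) D)
  obtain ⟨H, hH⟩ : ∃ H, H = hier 3 (D ^ (C + 1)) := ⟨_, rfl⟩
  obtain ⟨Q, hQ⟩ : ∃ Q, Q = (H.map (ltr C D)).mergeSort (· ≤ ·) := ⟨_, rfl⟩
  have pQ : Q.Perm (H.map (ltr C D)) := hQ ▸ List.mergeSort_perm _ _
  have lQ : ∀ x ∈ Q, x < 3 := fun x hx => by
    obtain ⟨s, -, rfl⟩ := List.mem_map.1 (pQ.subset hx)
    exact ltr_lt _ _ _
  have sW : (Q ++ H).Pairwise (· ≤ ·) :=
    List.pairwise_append.2 ⟨hQ ▸ List.pairwise_mergeSort' _ _, hH ▸ hier_sorted _ _,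
      fun a ha x hx => (lQ a ha).le.trans (hier_le _ _ x (hH ▸ hx))⟩
  refine ⟨(Q ++ H).map fun s => ι (ltr C D s), fun a => ?_, fun B B' hB hW hP m hm h => ?_⟩
  · have e : (Q.map fun s => ι (ltr C D s)).Perm (H.map fun s => ι (ltr C D s)) := by
      refine (pQ.map _).trans (.of_eq ?_)
      rw [List.map_map]
      exact List.map_congr_left fun s _ => congrArg ι (if_pos (ltr_lt C D s))
    rw [List.map_append, List.count_append, e.count_eq]
    exact ⟨_, rfl⟩
  obtain ⟨E₀, e1, rfl⟩ := lift _ B _ hW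
  obtain ⟨E, rfl, e2⟩ : ∃ E : List (List ℕ),
      B' = E.map (List.map fun s => ι (ltr C D s)) ∧ E.Perm E₀ :=
    (congrFun₂ (List.eq_map_comp_perm (List.map fun s => ι (ltr C D s))) B' E₀).mpr hP
  rw [List.length_map, ← e2.length_eq] at hB
  obtain ⟨s1, s2⟩ := List.pairwise_flatten.1 (e1 ▸ sW)
  have s3 : E.Pairwise fun X Y => (∀ x ∈ X, ∀ y ∈ Y, x ≤ y) ∨ ∀ x ∈ Y, ∀ y ∈ X, x ≤ y :=
    (s2.imp Or.inl).perm e2.symm Or.symm
  obtain ⟨V, hV⟩ : ∃ V : List (ℕ × ℕ), V = E.zipIdx.flatMap fun q => q.1.map (·, q.2) := ⟨_, rfl⟩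
  have v1 : V.map Prod.fst = E.flatten := by
    rw [hV, List.map_flatMap]
    conv_rhs => rw [← List.zipIdx_map_fst 0 E, ← List.flatMap_def]
    simp [Function.comp_def]
  have v2 : ∀ v ∈ V, ∃ h : v.2 < E.length, v.1 ∈ E[v.2] := fun v hv => by
    rw [hV] at hv
    obtain ⟨q, a, c⟩ := List.mem_flatMap.1 hv
    obtain ⟨s, d, rfl⟩ := List.mem_map.1 c
    obtain ⟨f, g⟩ := List.getElem?_eq_some_iff.1 (List.mem_zipIdx_iff_getElem?.1 a)
    exact ⟨f, g ▸ d⟩
  have v3 : V.Pairwise fun v w => v.2 < w.2 ∨ (v.2 = w.2 ∧ v.1 ≤ w.1) := by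
    rw [hV, List.pairwise_flatMap]
    refine ⟨fun q hq => List.pairwise_map.2 ((s1 q.1 (e2.subset
      (List.mem_of_getElem? (List.mem_zipIdx_iff_getElem?.1 hq)))).imp fun h => Or.inr ⟨rfl, h⟩),
      ?_⟩
    have : E.zipIdx.Pairwise fun q q' => q.2 < q'.2 := by
      rw [← List.pairwise_map (R := (· < ·)), List.zipIdx_map_snd]
      exact List.pairwise_lt_range'
    refine this.imp fun h x hx y hy => ?_
    obtain ⟨_, -, rfl⟩ := List.mem_map.1 hx
    obtain ⟨_, -, rfl⟩ := List.mem_map.1 hy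
    exact Or.inl h
  have v4 : ∀ x y : Fin V.length, x ≤ y →
      V[x.1].2 < V[y.1].2 ∨ (V[x.1].2 = V[y.1].2 ∧ V[x.1].1 ≤ V[y.1].1) := fun x y e => by
    rcases e.eq_or_lt with rfl | e
    · exact Or.inr ⟨rfl, le_rfl⟩
    · exact List.pairwise_iff_getElem.1 v3 _ _ _ _ e
  have v5 : ∀ p : ℕ → Bool, (∀ x, x < 3 → p x = false) →
      V.countP (fun v => p v.1) = H.countP p := fun p hp => by
    have a : Q.countP p = 0 := List.countP_eq_zero.2 fun x hx => by simp [hp x (lQ x hx)]
    have c := (e2.flatten.trans (.of_eq e1)).countP_eq p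
    rw [List.countP_append, a, zero_add, ← v1, List.countP_map] at c
    exact c
  have v6 : ∀ s, 3 ≤ s → s ≤ D ^ (C + 1) →
      #(univ.filter fun x : Fin V.length => V[x.1].1 = s) =
        2 * #(univ.filter fun x : Fin V.length => s < V[x.1].1) + 1 := fun s a c => by
    rw [card_countP V fun v => v.1 = s, card_countP V fun v => s < v.1,
      v5 (fun x => decide (x = s)) fun x hx => decide_eq_false (by omega),
      v5 (fun x => decide (s < x)) fun x hx => decide_eq_false (by omega), hH]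
    exact hier_count _ _ _ a (by omega)
  have e3 : (E.map (List.map fun s => ι (ltr C D s))).flatten =
      List.ofFn fun x : Fin V.length => ι (ltr C D V[x.1].1) := by
    rw [← List.map_flatten, ← v1, List.map_map]
    exact (List.ofFn_getElem_eq_map V _).symm
  rw [e3] at hm h
  obtain ⟨μ, m1, m2, m3, m4⟩ := matching' _ m hm h
  have mono : ∀ i j, i ≤ j → D ^ i ≤ D ^ j := fun i j => Nat.pow_le_pow_right (by omega)
  have ex : ∀ t : Fin (C + 1), ∃ x : Fin V.length, V[x.1].1 = D ^ (t.1 + 1) := fun t => by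
    obtain ⟨x, hx⟩ := card_pos.1 ((Nat.succ_pos _).trans_eq
      (v6 _ (hp t) (mono _ _ (by omega))).symm)
    exact ⟨x, (mem_filter.1 hx).2⟩
  choose p hp' using ex
  have bC : ∀ x : Fin V.length, V[x.1].2 < C := fun x =>
    (v2 _ (List.getElem_mem x.2)).1.trans_le hB
  obtain ⟨t, t', c1, c2⟩ : ∃ t t' : Fin (C + 1), t < t' ∧ V[(p t).1].2 = V[(p t').1].2 := by
    obtain ⟨t, t', a, c⟩ := Fintype.exists_ne_map_eq_of_card_lt
      (fun t => (⟨_, bC (p t)⟩ : Fin C)) (by simp)
    have c' := congrArg Fin.val c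
    rcases a.lt_or_gt with e | e
    exacts [⟨t, t', e, c'⟩, ⟨t', t, e, c'.symm⟩]
  have w1 := win C (t.1 + 1)
  rw [← hD] at w1
  have w2 := mono (t.1 + 1 + 1) (t'.1 + 1) (by omega)
  have w3 := mono (t'.1 + 1) (C + 1) (by omega)
  have w4 := hp t
  refine core (fun x : Fin V.length => V[x.1].1) (fun x => V[x.1].2) μ (fun s => ι (ltr C D s)) ι
    (D ^ (t.1 + 1) + 1) C V[(p t).1].2 hι m1 m2 m3 m4
    (fun x y e => (v4 x y e).elim le_of_lt fun e => e.1.le)
    (fun x y e e' => ((v4 x y e).resolve_left e'.not_lt).2) bC (fun x a c => ?_)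
    (fun s a c => v6 s (by omega) (by omega)) fun j hj => ?_
  · by_contra e
    obtain ⟨f1, g1⟩ := v2 _ (List.getElem_mem x.2)
    obtain ⟨f2, g2⟩ := v2 _ (List.getElem_mem (p t).2)
    obtain ⟨f3, g3⟩ := v2 _ (List.getElem_mem (p t').2)
    simp only [← c2] at g3
    rw [hp'] at g2 g3
    have k : (∀ a ∈ E[V[x.1].2], ∀ c ∈ E[V[(p t).1].2], a ≤ c) ∨
        ∀ a ∈ E[V[(p t).1].2], ∀ c ∈ E[V[x.1].2], a ≤ c := by
      rcases Nat.lt_or_gt_of_ne e with k | k
      · exact List.pairwise_iff_getElem.1 s3 _ _ _ _ k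
      · exact (List.pairwise_iff_getElem.1 s3 _ _ _ _ k).symm
    rcases k with k | k
    · have := k _ g1 _ g2
      omega
    · have := k _ g3 _ g1
      omega
  · have e : Nat.log D (D ^ (t.1 + 1) + 1 + j) = t.1 + 1 :=
      Nat.log_eq_of_pow_le_of_lt_pow (by omega) (by omega)
    simp only [ltr, if_neg (show ¬ D ^ (t.1 + 1) + 1 + j < 3 by omega), e, Nat.add_sub_cancel_left]

end Pool.Agent.P.MP_df1ab4_co.Tern
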